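import Mathlib

set_option autoImplicit false

/-! Definitions for the theorem on C2v and C3v symmetric frameworks in the plane. -/

namespace Pool.Agent.DihedralLaman

/-- The rigidity matrix of the framework (G, p): its rows are the edges, its columns the pairs
(vertex, coordinate). The row of the edge e = {u, v} has p(u) - p(v) in the columns of u,
p(v) - p(u) in the columns of v (`Sym2.Mem.other h` is the other end of e), and zeros
elsewhere. -/
noncomputable def rigidityMatrix {V : Type*} (G : SimpleGraph V) (p : V → Fin 2 → ℝ) :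
    Matrix G.edgeSet (V × Fin 2) ℝ :=
  open Classical in
  fun e c => if h : c.1 ∈ e.1 then p c.1 c.2 - p (Sym2.Mem.other h) c.2 else 0

/-- The framework (G, p) is isostatic: the rank of the rigidity matrix is |E| = 2|V| - 3. -/
def IsIsostatic {V : Type*} [Fintype V] (G : SimpleGraph V) (p : V → Fin 2 → ℝ) : Prop :=
  (rigidityMatrix G p).rank = Nat.card G.edgeSet ∧ Nat.card G.edgeSet + 3 = 2 * Nat.card V

/-- Laman's conditions: |E| = 2|V| - 3 and |E'| is at most 2|V'| - 3 for every subgraph
(V', E') with at least two vertices. -/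
def IsLaman {V : Type*} (G : SimpleGraph V) : Prop :=
  Nat.card G.edgeSet + 3 = 2 * Nat.card V ∧
    ∀ H : G.Subgraph, 2 ≤ Nat.card H.verts → Nat.card H.edgeSet + 3 ≤ 2 * Nat.card H.verts

section
variable {V : Type*} {G : SimpleGraph V} {Γ : Type*} [Group Γ]
  (θ : Γ →* (G ≃g G)) (τ : Γ →* Matrix.orthogonalGroup (Fin 2) ℝ)

/-- The map p from V to the plane satisfies p(θ(γ)v) = τ(γ)p(v) for all γ and v. -/
def IsSymmetric (p : V → Fin 2 → ℝ) : Prop :=
  ∀ (γ : Γ) (v : V), p (θ γ v) = Matrix.mulVec (τ γ).1 (p v)

/-- The map p is a symmetric realization: it is injective and symmetric. -/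
def IsRealization (p : V → Fin 2 → ℝ) : Prop :=
  Function.Injective p ∧ IsSymmetric θ τ p

/-- The map p is an inc-regular realization: a symmetric realization whose rigidity matrix has
the largest rank among all symmetric realizations. -/
def IsIncRegular [Fintype V] (p : V → Fin 2 → ℝ) : Prop :=
  IsRealization θ τ p ∧
    ∀ q : V → Fin 2 → ℝ, IsRealization θ τ q →
      (rigidityMatrix G q).rank ≤ (rigidityMatrix G p).rank

/-- The symmetric counts, as spelled out for C2v and C3v: an element of the group that acts on
the plane as a rotation different from the identity fixes no vertex, and an element that acts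
as a reflection or as the half-turn maps exactly one edge to itself. -/
def SymmetricCounts : Prop :=
  (∀ γ : Γ, (τ γ).1.det = 1 → (τ γ).1 ≠ 1 → ∀ v : V, θ γ v ≠ v) ∧
    ∀ γ : Γ, ((τ γ).1.det = -1 ∨ (τ γ).1 = -1) →
      Nat.card {e : G.edgeSet // Sym2.map (θ γ) e.1 = e.1} = 1
end

/-- The rotation of the plane by the angle 2π/3. -/
noncomputable def rot : Matrix (Fin 2) (Fin 2) ℝ :=
  !![Real.cos (2 * Real.pi / 3), -Real.sin (2 * Real.pi / 3);
    Real.sin (2 * Real.pi / 3), Real.cos (2 * Real.pi / 3)]

/-- The set S of matrices is the group C2v: the identity, the half-turn, a reflection s and the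
reflection -s in the line perpendicular to the mirror line of s. -/
def IsC2v (S : Set (Matrix (Fin 2) (Fin 2) ℝ)) : Prop :=
  ∃ s : Matrix (Fin 2) (Fin 2) ℝ, s ∈ Matrix.orthogonalGroup (Fin 2) ℝ ∧ s.det = -1 ∧
    S = {1, -1, s, -s}

/-- The set S of matrices is the group C3v: the identity, the rotations by the angles 2π/3 and
4π/3, and three reflections. -/
def IsC3v (S : Set (Matrix (Fin 2) (Fin 2) ℝ)) : Prop :=
  ∃ s : Matrix (Fin 2) (Fin 2) ℝ, s ∈ Matrix.orthogonalGroup (Fin 2) ℝ ∧ s.det = -1 ∧
    S = {1, rot, rot * rot, s, s * rot, s * (rot * rot)}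

end Pool.Agent.DihedralLaman
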