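import Pool.Agent.Lib_MP_d5472a_co_ins.Defs

set_option autoImplicit false

/-! The groups C2v and C3v as sets of matrices. -/

namespace Pool.Agent.DihedralLaman

theorem rot_eq : rot = !![-1 / 2, -(Real.sqrt 3 / 2); Real.sqrt 3 / 2, -1 / 2] := by
  have h1 : Real.cos (2 * Real.pi / 3) = -1 / 2 := by
    rw [show 2 * Real.pi / 3 = Real.pi - Real.pi / 3 by ring, Real.cos_pi_sub,
      Real.cos_pi_div_three]
    norm_num
  have h2 : Real.sin (2 * Real.pi / 3) = Real.sqrt 3 / 2 := by
    rw [show 2 * Real.pi / 3 = Real.pi - Real.pi / 3 by ring, Real.sin_pi_sub,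
      Real.sin_pi_div_three]
  rw [rot, h1, h2]

theorem sq3 : Real.sqrt 3 * Real.sqrt 3 = 3 := Real.mul_self_sqrt (by norm_num)

theorem rot_rot : rot * rot = !![-1 / 2, Real.sqrt 3 / 2; -(Real.sqrt 3 / 2), -1 / 2] := by
  rw [rot_eq]
  ext i j
  have h := sq3
  fin_cases i <;> fin_cases j <;>
    simp [Matrix.mul_apply, Fin.sum_univ_two] <;> nlinarith

theorem rot_rot_rot : rot * (rot * rot) = 1 := by
  rw [rot_rot, rot_eq]
  ext i j
  have h := sq3
  fin_cases i <;> fin_cases j <;>
    simp [Matrix.mul_apply, Fin.sum_univ_two] <;> nlinarith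

theorem det_rot : rot.det = 1 := by
  rw [rot_eq, Matrix.det_fin_two]
  have h := sq3
  simp
  nlinarith

theorem trace_rot : rot.trace = -1 := by
  rw [rot_eq, Matrix.trace_fin_two]
  norm_num

theorem trace_rot_rot : (rot * rot).trace = -1 := by
  rw [rot_rot, Matrix.trace_fin_two]
  norm_num

theorem trace_one' : (1 : Matrix (Fin 2) (Fin 2) ℝ).trace = 2 := by
  simp

theorem trace_zero_of_det {M : Matrix (Fin 2) (Fin 2) ℝ}
    (hM : M ∈ Matrix.orthogonalGroup (Fin 2) ℝ) (hd : M.det = -1) : M.trace = 0 := by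
  have h := (Matrix.mem_orthogonalGroup_iff (Fin 2) ℝ).1 hM
  have h00 := congrFun (congrFun h 0) 0
  have h11 := congrFun (congrFun h 1) 1
  simp [Matrix.mul_apply, Fin.sum_univ_two] at h00 h11
  rw [Matrix.det_fin_two] at hd
  rw [Matrix.trace_fin_two]
  have h1 : (M 0 0 + M 1 1) ^ 2 + (M 0 1 - M 1 0) ^ 2 = 0 := by nlinarith
  nlinarith [sq_nonneg (M 0 0 + M 1 1), sq_nonneg (M 0 1 - M 1 0)]

theorem left_cancel {s A B : Matrix (Fin 2) (Fin 2) ℝ}
    (hs : s ∈ Matrix.orthogonalGroup (Fin 2) ℝ) (h : s * A = s * B) : A = B := by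
  have h1 := (Matrix.mem_orthogonalGroup_iff' (Fin 2) ℝ).1 hs
  calc A = (s.transpose * s) * A := by rw [h1, one_mul]
    _ = s.transpose * (s * A) := by rw [mul_assoc]
    _ = s.transpose * (s * B) := by rw [h]
    _ = (s.transpose * s) * B := by rw [mul_assoc]
    _ = B := by rw [h1, one_mul]

theorem det_neg_two (M : Matrix (Fin 2) (Fin 2) ℝ) : (-M).det = M.det := by
  rw [Matrix.det_neg]
  simp

theorem neg_one_ne_one : (-1 : Matrix (Fin 2) (Fin 2) ℝ) ≠ 1 := by
  intro h
  have h1 := congrArg Matrix.trace h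
  rw [Matrix.trace_neg, trace_one'] at h1
  norm_num at h1

theorem card_C2v {S : Set (Matrix (Fin 2) (Fin 2) ℝ)} (h : IsC2v S) : S.ncard = 4 := by
  classical
  obtain ⟨s, hs, hd, rfl⟩ := h
  have h1 : (1 : Matrix (Fin 2) (Fin 2) ℝ) ≠ s := by
    intro h; rw [← h, Matrix.det_one] at hd; norm_num at hd
  have h2 : (1 : Matrix (Fin 2) (Fin 2) ℝ) ≠ -s := by
    intro h
    have := congrArg Matrix.det h
    rw [det_neg_two, hd, Matrix.det_one] at this
    norm_num at this
  have h3 : (-1 : Matrix (Fin 2) (Fin 2) ℝ) ≠ s := by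
    intro h
    have := congrArg Matrix.det h
    rw [det_neg_two, hd, Matrix.det_one] at this
    norm_num at this
  have h4 : (-1 : Matrix (Fin 2) (Fin 2) ℝ) ≠ -s := by
    intro h; exact h1 (neg_injective h)
  have h5 : s ≠ -s := by
    intro h
    have h6 : s = 0 := by
      have h7 : s + s = 0 := by nth_rewrite 2 [h]; simp
      have h8 : (2 : ℝ) • s = 0 := by rw [two_smul]; exact h7
      rcases smul_eq_zero.1 h8 with h9 | h9
      · norm_num at h9
      · exact h9
    rw [h6] at hd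
    simp at hd
  have h6 := neg_one_ne_one.symm
  rw [show ({1, -1, s, -s} : Set (Matrix (Fin 2) (Fin 2) ℝ))
      = (({1, -1, s, -s} : Finset (Matrix (Fin 2) (Fin 2) ℝ)) : Set _) by simp,
    Set.ncard_coe_finset]
  rw [Finset.card_insert_of_notMem (by simp [h1, h2, h6]),
    Finset.card_insert_of_notMem (by simp only [Finset.mem_insert, Finset.mem_singleton, not_or]; exact ⟨h3, h4⟩),
    Finset.card_insert_of_notMem (by simp only [Finset.mem_singleton]; exact h5), Finset.card_singleton]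

theorem card_C3v {S : Set (Matrix (Fin 2) (Fin 2) ℝ)} (h : IsC3v S) : S.ncard = 6 := by
  classical
  obtain ⟨s, hs, hd, rfl⟩ := h
  have t1 := trace_one'
  have t2 := trace_rot
  have t3 := trace_rot_rot
  have d1 : rot.det = 1 := det_rot
  have d2 : (rot * rot).det = 1 := by rw [Matrix.det_mul, d1, one_mul]
  have d3 : (s * rot).det = -1 := by rw [Matrix.det_mul, d1, hd, mul_one]
  have d4 : (s * (rot * rot)).det = -1 := by rw [Matrix.det_mul, d2, hd, mul_one]
  have hne : ∀ {A B : Matrix (Fin 2) (Fin 2) ℝ}, A.det = 1 → B.det = -1 → A ≠ B := by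
    intro A B hA hB h
    rw [h, hB] at hA
    norm_num at hA
  have a1 : (1 : Matrix (Fin 2) (Fin 2) ℝ) ≠ rot := by
    intro h; rw [← h, t1] at t2; norm_num at t2
  have a2 : (1 : Matrix (Fin 2) (Fin 2) ℝ) ≠ rot * rot := by
    intro h; rw [← h, t1] at t3; norm_num at t3
  have a3 : rot ≠ rot * rot := by
    intro h
    have h2 : rot * (rot * rot) = rot * rot := congrArg (fun A => rot * A) h.symm
    rw [rot_rot_rot] at h2
    exact a2 h2
  have b1 : s ≠ s * rot := by
    intro h
    exact a1 (left_cancel hs (by rw [mul_one]; exact h))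
  have b2 : s ≠ s * (rot * rot) := by
    intro h
    exact a2 (left_cancel hs (by rw [mul_one]; exact h))
  have b3 : s * rot ≠ s * (rot * rot) := fun h => a3 (left_cancel hs h)
  have m1 := hne Matrix.det_one hd
  have m2 := hne Matrix.det_one d3
  have m3 := hne Matrix.det_one d4
  have m4 := hne d1 hd
  have m5 := hne d1 d3
  have m6 := hne d1 d4
  have m7 := hne d2 hd
  have m8 := hne d2 d3
  have m9 := hne d2 d4
  rw [show ({1, rot, rot * rot, s, s * rot, s * (rot * rot)} : Set (Matrix (Fin 2) (Fin 2) ℝ))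
      = (({1, rot, rot * rot, s, s * rot, s * (rot * rot)} :
        Finset (Matrix (Fin 2) (Fin 2) ℝ)) : Set _) by simp,
    Set.ncard_coe_finset]
  rw [Finset.card_insert_of_notMem (by
        simp only [Finset.mem_insert, Finset.mem_singleton, not_or]
        exact ⟨a1, a2, m1, m2, m3⟩),
    Finset.card_insert_of_notMem (by
        simp only [Finset.mem_insert, Finset.mem_singleton, not_or]
        exact ⟨a3, m4, m5, m6⟩),
    Finset.card_insert_of_notMem (by
        simp only [Finset.mem_insert, Finset.mem_singleton, not_or]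
        exact ⟨m7, m8, m9⟩),
    Finset.card_insert_of_notMem (by
        simp only [Finset.mem_insert, Finset.mem_singleton, not_or]
        exact ⟨b1, b2⟩),
    Finset.card_insert_of_notMem (by
        simp only [Finset.mem_singleton]
        exact b3), Finset.card_singleton]

/-- the elements of the two groups -/
theorem cases_of {S : Set (Matrix (Fin 2) (Fin 2) ℝ)} (h : IsC2v S ∨ IsC3v S)
    (hS : ∀ M ∈ S, M ∈ Matrix.orthogonalGroup (Fin 2) ℝ) {M : Matrix (Fin 2) (Fin 2) ℝ}
    (hM : M ∈ S) :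
    M = 1 ∨ (M = -1 ∧ M.det = 1 ∧ M.trace = -2) ∨
      (M.det = 1 ∧ M.trace = -1 ∧ M ≠ 1 ∧ M * M ≠ 1 ∧ (M * M).det = 1) ∨
      (M.det = -1 ∧ M.trace = 0) := by
  have hO := hS M hM
  rcases h with ⟨s, hs, hd, hSe⟩ | ⟨s, hs, hd, hSe⟩
  · rw [hSe] at hM
    simp only [Set.mem_insert_iff, Set.mem_singleton_iff] at hM
    rcases hM with h | h | h | h
    · exact Or.inl h
    · refine Or.inr (Or.inl ⟨h, ?_, ?_⟩)
      · rw [h, det_neg_two, Matrix.det_one]
      · rw [h, Matrix.trace_neg, trace_one']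
    · have h1 : M.det = -1 := by rw [h, hd]
      exact Or.inr (Or.inr (Or.inr ⟨h1, trace_zero_of_det hO h1⟩))
    · have h1 : M.det = -1 := by rw [h, det_neg_two, hd]
      exact Or.inr (Or.inr (Or.inr ⟨h1, trace_zero_of_det hO h1⟩))
  · have d1 : rot.det = 1 := det_rot
    have d2 : (rot * rot).det = 1 := by rw [Matrix.det_mul, d1, one_mul]
    have d3 : (s * rot).det = -1 := by rw [Matrix.det_mul, d1, hd, mul_one]
    have d4 : (s * (rot * rot)).det = -1 := by rw [Matrix.det_mul, d2, hd, mul_one]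
    have e1 : (rot * rot) * (rot * rot) = rot := by
      rw [mul_assoc, rot_rot_rot, mul_one]
    have ne1 : ∀ A : Matrix (Fin 2) (Fin 2) ℝ, A.trace = -1 → A ≠ 1 := by
      intro A hA h
      rw [h, trace_one'] at hA
      norm_num at hA
    rw [hSe] at hM
    simp only [Set.mem_insert_iff, Set.mem_singleton_iff] at hM
    rcases hM with h | h | h | h | h | h
    · exact Or.inl h
    · refine Or.inr (Or.inr (Or.inl ?_))
      rw [h]
      exact ⟨d1, trace_rot, ne1 _ trace_rot, ne1 _ trace_rot_rot, d2⟩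
    · refine Or.inr (Or.inr (Or.inl ?_))
      rw [h, e1]
      exact ⟨d2, trace_rot_rot, ne1 _ trace_rot_rot, ne1 _ trace_rot, d1⟩
    · have h1 : M.det = -1 := by rw [h, hd]
      exact Or.inr (Or.inr (Or.inr ⟨h1, trace_zero_of_det hO h1⟩))
    · have h1 : M.det = -1 := by rw [h, d3]
      exact Or.inr (Or.inr (Or.inr ⟨h1, trace_zero_of_det hO h1⟩))
    · have h1 : M.det = -1 := by rw [h, d4]
      exact Or.inr (Or.inr (Or.inr ⟨h1, trace_zero_of_det hO h1⟩))

theorem exists_refl {S : Set (Matrix (Fin 2) (Fin 2) ℝ)} (h : IsC2v S ∨ IsC3v S) :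
    ∃ M ∈ S, M.det = -1 := by
  rcases h with ⟨s, hs, hd, hSe⟩ | ⟨s, hs, hd, hSe⟩
  · exact ⟨s, by rw [hSe]; simp, hd⟩
  · exact ⟨s, by rw [hSe]; simp, hd⟩

end Pool.Agent.DihedralLaman
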