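import Pool.Agent.Lib_MP_d5472a_co_ins.Defs

set_option autoImplicit false

/-! Frameworks on a line of placements: the good parameters are cofinite as soon as there is
one. -/

namespace Pool.Agent.DihedralLaman

variable {V : Type*} [Fintype V] (G : SimpleGraph V)

omit [Fintype V] in
theorem rigidityMatrix_line (a c : V → Fin 2 → ℝ) (t : ℝ) :
    rigidityMatrix G (a + t • c) = rigidityMatrix G a + t • rigidityMatrix G c := by
  classical
  ext e x
  simp only [rigidityMatrix, Matrix.add_apply, Matrix.smul_apply, Pi.add_apply, Pi.smul_apply,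
    smul_eq_mul]
  split_ifs with h
  · ring
  · ring

theorem rank_le_card_edges (p : V → Fin 2 → ℝ) :
    (rigidityMatrix G p).rank ≤ Nat.card G.edgeSet := by
  classical
  have : Fintype G.edgeSet := Fintype.ofFinite _
  rw [Nat.card_eq_fintype_card]
  exact Matrix.rank_le_card_height _

theorem det_ne_zero_of_rank {m : Type*} [Fintype m] [DecidableEq m] (B : Matrix m m ℝ)
    (h : B.rank = Fintype.card m) : B.det ≠ 0 := by
  have h1 : LinearMap.range B.mulVecLin = ⊤ := by
    apply Submodule.eq_top_of_finrank_eq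
    rw [Module.finrank_pi]
    exact h
  have h2 : Function.Surjective B.mulVec := by
    intro y
    have : y ∈ LinearMap.range B.mulVecLin := by rw [h1]; trivial
    obtain ⟨x, hx⟩ := this
    exact ⟨x, hx⟩
  have h3 : IsUnit B := Matrix.mulVec_surjective_iff_isUnit.1 h2
  exact ((Matrix.isUnit_iff_isUnit_det B).1 h3).ne_zero

theorem finite_bad_rank (a c : V → Fin 2 → ℝ) (t₀ : ℝ)
    (h : (rigidityMatrix G (a + t₀ • c)).rank = Nat.card G.edgeSet) :
    {t : ℝ | (rigidityMatrix G (a + t • c)).rank ≠ Nat.card G.edgeSet}.Finite := by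
  classical
  have : Fintype G.edgeSet := Fintype.ofFinite _
  let A := rigidityMatrix G a
  let C := rigidityMatrix G c
  let M : Matrix G.edgeSet (V × Fin 2) (Polynomial ℝ) :=
    A.map Polynomial.C + (Polynomial.X : Polynomial ℝ) • C.map Polynomial.C
  let P : Polynomial ℝ := (M * M.transpose).det
  have hM : ∀ t : ℝ, M.map (Polynomial.evalRingHom t) = rigidityMatrix G (a + t • c) := by
    intro t
    rw [rigidityMatrix_line]
    ext e x
    simp only [M, A, C, Matrix.map_apply, Matrix.add_apply, Matrix.smul_apply, smul_eq_mul,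
      Polynomial.coe_evalRingHom, Polynomial.eval_add, Polynomial.eval_mul, Polynomial.eval_C,
      Polynomial.eval_X]
  have hP : ∀ t : ℝ, P.eval t
      = (rigidityMatrix G (a + t • c) * (rigidityMatrix G (a + t • c)).transpose).det := by
    intro t
    have h1 : P.eval t = Polynomial.evalRingHom t (M * M.transpose).det := rfl
    rw [h1, RingHom.map_det, RingHom.mapMatrix_apply, Matrix.map_mul, Matrix.transpose_map, hM]
  have hP0 : P ≠ 0 := by
    intro h0
    have h1 := hP t₀
    rw [h0, Polynomial.eval_zero] at h1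
    refine det_ne_zero_of_rank _ ?_ h1.symm
    rw [Matrix.rank_self_mul_transpose, h, Nat.card_eq_fintype_card]
  refine (P.rootSet_finite ℝ).subset ?_
  intro t ht
  rw [Polynomial.mem_rootSet]
  refine ⟨hP0, ?_⟩
  rw [Polynomial.coe_aeval_eq_eval]
  by_contra hne
  apply ht
  rw [hP t] at hne
  have h1 := Matrix.rank_of_det_ne_zero hne
  rw [Matrix.rank_self_mul_transpose] at h1
  rw [h1, Nat.card_eq_fintype_card]

omit [Fintype V] in
theorem finite_bad_pair (a c : V → Fin 2 → ℝ) (u v : V) (t₀ : ℝ)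
    (h : (a + t₀ • c) u ≠ (a + t₀ • c) v) :
    {t : ℝ | (a + t • c) u = (a + t • c) v}.Finite := by
  refine Set.Subsingleton.finite ?_
  intro s hs t ht
  by_contra hst
  apply h
  funext i
  have h1 := congrFun hs i
  have h2 := congrFun ht i
  simp only [Pi.add_apply, Pi.smul_apply, smul_eq_mul] at h1 h2 ⊢
  have h3 : (s - t) * (c u i - c v i) = 0 := by linarith
  rcases mul_eq_zero.1 h3 with h4 | h4
  · exact absurd (sub_eq_zero.1 h4) hst
  · have h5 : c u i = c v i := sub_eq_zero.1 h4
    rw [h5] at h1 ⊢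
    linarith

theorem finite_bad_inj (a c : V → Fin 2 → ℝ) (t₀ : ℝ) (h : Function.Injective (a + t₀ • c)) :
    {t : ℝ | ¬ Function.Injective (a + t • c)}.Finite := by
  classical
  have h1 : (⋃ x : V × V, {t : ℝ | x.1 ≠ x.2 ∧ (a + t • c) x.1 = (a + t • c) x.2}).Finite := by
    refine Set.finite_iUnion ?_
    intro x
    by_cases hx : x.1 = x.2
    · refine Set.Finite.subset Set.finite_empty ?_
      intro t ht
      exact absurd hx ht.1
    · refine (finite_bad_pair a c x.1 x.2 t₀ (fun h2 => hx (h h2))).subset ?_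
      intro t ht
      exact ht.2
  refine h1.subset ?_
  intro t ht
  rw [Set.mem_ofPred_eq, Function.Injective] at ht
  push Not at ht
  obtain ⟨u, v, huv, hne⟩ := ht
  exact Set.mem_iUnion.2 ⟨(u, v), hne, huv⟩

section
variable {G} {Γ : Type*} [Group Γ] (θ : Γ →* (G ≃g G)) (τ : Γ →* Matrix.orthogonalGroup (Fin 2) ℝ)

omit [Fintype V] in
theorem isSymmetric_line {a c : V → Fin 2 → ℝ} (ha : IsSymmetric θ τ a)
    (hc : IsSymmetric θ τ c) (t : ℝ) : IsSymmetric θ τ (a + t • c) := by
  intro γ v
  simp only [Pi.add_apply, Pi.smul_apply]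
  rw [ha γ v, hc γ v, Matrix.mulVec_add, Matrix.mulVec_smul]

omit [Fintype V] in
theorem isSymmetric_sub {a c : V → Fin 2 → ℝ} (ha : IsSymmetric θ τ a)
    (hc : IsSymmetric θ τ c) : IsSymmetric θ τ (a - c) := by
  intro γ v
  simp only [Pi.sub_apply]
  rw [ha γ v, hc γ v, Matrix.mulVec_sub]

/-- from a realization and a symmetric map of full rank to an isostatic realization -/
theorem exists_good {r q : V → Fin 2 → ℝ} (hr : IsRealization θ τ r) (hq : IsSymmetric θ τ q)
    (hrank : (rigidityMatrix G q).rank = Nat.card G.edgeSet) :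
    ∃ p : V → Fin 2 → ℝ, IsRealization θ τ p ∧
      (rigidityMatrix G p).rank = Nat.card G.edgeSet := by
  have h1 := finite_bad_rank G r (q - r) 1 (by simpa using hrank)
  have h2 := finite_bad_inj r (q - r) 0 (by simpa using hr.1)
  obtain ⟨t, ht⟩ := ((h1.union h2).infinite_compl).nonempty
  simp only [Set.mem_compl_iff, Set.mem_union, Set.mem_ofPred_eq, not_or, not_not] at ht
  exact ⟨r + t • (q - r), ⟨ht.2, isSymmetric_line θ τ hr.2 (isSymmetric_sub θ τ hq hr.2) t⟩,
    ht.1⟩

/-- density of the isostatic realizations -/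
theorem exists_near {p q : V → Fin 2 → ℝ} (hp : IsRealization θ τ p) (hq : IsSymmetric θ τ q)
    (hrank : (rigidityMatrix G p).rank = Nat.card G.edgeSet) (ε : ℝ) (hε : 0 < ε) :
    ∃ p' : V → Fin 2 → ℝ, IsRealization θ τ p' ∧
      (rigidityMatrix G p').rank = Nat.card G.edgeSet ∧ dist p' q < ε := by
  have h1 := finite_bad_rank G q (p - q) 1 (by simpa using hrank)
  have h2 := finite_bad_inj q (p - q) 1 (by simpa using hp.1)
  have hcont : Continuous fun t : ℝ => dist (q + t • (p - q)) q := by fun_prop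
  have h0 : dist (q + (0 : ℝ) • (p - q)) q < ε := by simpa using hε
  obtain ⟨δ, hδ, hball⟩ := Metric.isOpen_iff.1 (isOpen_lt hcont continuous_const) 0 h0
  have h3 : (Set.Ioo (0 : ℝ) δ).Infinite := Set.Ioo_infinite hδ
  obtain ⟨t, ht, ht'⟩ := (h3.sdiff (h1.union h2)).nonempty
  simp only [Set.mem_union, Set.mem_ofPred_eq, not_or, not_not] at ht'
  refine ⟨q + t • (p - q), ⟨ht'.2, isSymmetric_line θ τ hq (isSymmetric_sub θ τ hp.2 hq) t⟩,
    ht'.1, ?_⟩
  have h4 : t ∈ Metric.ball (0 : ℝ) δ := by
    rw [Metric.mem_ball, Real.dist_eq, sub_zero, abs_of_pos ht.1]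
    exact ht.2
  exact hball h4

end

end Pool.Agent.DihedralLaman
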