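import Pool.Agent.Lib_MP_d5472a_co_ins.Trans

set_option autoImplicit false

/-! The main theorem. -/

namespace Pool.Agent.DihedralLaman
open Pool.Agent.SymLaman (rigM)

section
variable {V : Type*} [Fintype V] {G : SimpleGraph V} {Γ : Type*} [Group Γ]
  (θ : Γ →* (G ≃g G)) (τ : Γ →* Matrix.orthogonalGroup (Fin 2) ℝ)

omit [Fintype V] in
theorem theta_eq {r : V → Fin 2 → ℝ} (hr : IsRealization θ τ r) {γ δ : Γ} (h : τ γ = τ δ)
    (v : V) : θ γ v = θ δ v := by
  apply hr.1
  rw [hr.2 γ v, hr.2 δ v, h]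

omit [Fintype V] in
theorem theta_mul (γ δ : Γ) (v : V) : θ (γ * δ) v = θ γ (θ δ v) := by
  rw [map_mul]
  rfl

omit [Fintype V] in
theorem theta_one (v : V) : θ 1 v = v := by
  rw [map_one]
  rfl

theorem exists_full
    (hτ : IsC2v (Set.range fun γ : Γ => (τ γ).1) ∨ IsC3v (Set.range fun γ : Γ => (τ γ).1))
    (hG : IsLaman G) (hc : SymmetricCounts θ τ) {r : V → Fin 2 → ℝ}
    (hr : IsRealization θ τ r) :
    ∃ q : V → Fin 2 → ℝ, IsSymmetric θ τ q ∧
      (rigidityMatrix G q).rank = Nat.card G.edgeSet := by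
  classical
  let e : V ≃ Fin (Fintype.card V) := Fintype.equivFin V
  let H := τ.range
  -- the order of the image
  have hH : Nat.card H = 4 ∨ Nat.card H = 6 := by
    have h1 : Nat.card H = (Set.range fun γ : Γ => (τ γ).1).ncard := by
      rw [← Nat.card_coe_set_eq]
      refine Nat.card_congr ⟨fun h => ⟨h.1.1, ?_⟩, fun M => ⟨⟨M.1, ?_⟩, ?_⟩, ?_, ?_⟩
      · obtain ⟨γ, hγ⟩ := h.2
        exact ⟨γ, by show (τ γ).1 = h.1.1; rw [hγ]⟩
      · obtain ⟨γ, hγ⟩ := M.2
        rw [← hγ]
        exact (τ γ).2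
      · obtain ⟨γ, hγ⟩ := M.2
        exact ⟨γ, Subtype.ext hγ⟩
      · intro h
        rfl
      · intro M
        rfl
    rw [h1]
    rcases hτ with h | h
    · exact Or.inl (card_C2v h)
    · exact Or.inr (card_C3v h)
  have hfin : Finite H := by
    apply Nat.finite_of_card_ne_zero
    rcases hH with h | h <;> rw [h] <;> norm_num
  let _ : Fintype H := Fintype.ofFinite _
  -- the action of the image
  let pre : H → Γ := fun h => Classical.choose h.2
  have hpre : ∀ h : H, τ (pre h) = h.1 := fun h => Classical.choose_spec h.2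
  let act : MulAction H (Fin (Fintype.card V)) :=
    { smul := fun h a => e (θ (pre h) (e.symm a))
      one_smul := by
        intro a
        show e (θ (pre 1) (e.symm a)) = a
        rw [theta_eq θ τ hr (γ := pre 1) (δ := 1) (by rw [hpre, map_one]; rfl), theta_one]
        exact e.apply_symm_apply a
      mul_smul := by
        intro g h a
        show e (θ (pre (g * h)) (e.symm a)) = e (θ (pre g) (e.symm (e (θ (pre h) (e.symm a)))))
        rw [e.symm_apply_apply, ← theta_mul]
        rw [theta_eq θ τ hr (γ := pre (g * h)) (δ := pre g * pre h)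
          (by rw [map_mul, hpre, hpre, hpre]; rfl)] }
  have hact : ∀ (γ : Γ) (a : Fin (Fintype.card V)),
      (⟨τ γ, γ, rfl⟩ : H) • a = e (θ γ (e.symm a)) := by
    intro γ a
    show e (θ (pre ⟨τ γ, γ, rfl⟩) (e.symm a)) = _
    rw [theta_eq θ τ hr (γ := pre ⟨τ γ, γ, rfl⟩) (δ := γ) (hpre _)]
  have hS : ∀ M ∈ Set.range (fun γ : Γ => (τ γ).1), M ∈ Matrix.orthogonalGroup (Fin 2) ℝ := by
    rintro M ⟨γ, rfl⟩
    exact (τ γ).2
  obtain ⟨q, hq, hrank⟩ := Pool.Agent.SymLaman.main_lower (Fin (Fintype.card V)) (tr G e) H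
    (Subgroup.subtype H)
    (by
      rintro ⟨_, γ, rfl⟩ a b
      rw [hact, hact, tr_adj, tr_adj, e.symm_apply_apply, e.symm_apply_apply]
      exact ((θ γ).map_adj_iff).symm)
    (Subtype.val_injective)
    (by rw [← Nat.card_eq_fintype_card]; exact hH)
    (by
      obtain ⟨M, ⟨γ, hγ⟩, hd⟩ := exists_refl hτ
      refine ⟨⟨τ γ, γ, rfl⟩, ?_⟩
      show (τ γ).1.det = -1
      rw [← hd]
      exact congrArg Matrix.det hγ)
    (fun S hS => laman_tr G e hG S hS)
    (by
      rintro ⟨_, γ, rfl⟩
      have hfix := card_fixed_pairs G e (θ γ)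
        (fun a => (⟨τ γ, γ, rfl⟩ : H) • a) (hact γ)
      have hgoal : (Subgroup.subtype H ⟨τ γ, γ, rfl⟩).1 = (τ γ).1 := rfl
      rw [hgoal]
      have hfix' : (((Finset.univ.filter (fun x : Fin (Fintype.card V) × Fin (Fintype.card V) =>
          (tr G e).Adj x.1 x.2 ∧
          (((⟨τ γ, γ, rfl⟩ : H) • x.1 = x.1 ∧ (⟨τ γ, γ, rfl⟩ : H) • x.2 = x.2) ∨
           ((⟨τ γ, γ, rfl⟩ : H) • x.1 = x.2 ∧ (⟨τ γ, γ, rfl⟩ : H) • x.2 = x.1)))).card : ℝ))
          = 2 * (Nat.card {d : G.edgeSet // Sym2.map (θ γ) d.1 = d.1} : ℝ) := by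
        exact_mod_cast hfix
      rw [hfix']
      rcases cases_of hτ hS (M := (τ γ).1) ⟨γ, rfl⟩ with h | ⟨h, hdet, htr⟩ |
        ⟨hdet, htr, hne, hne2, hdet2⟩ | ⟨hdet, htr⟩
      · -- the identity
        have hid : ∀ v : V, θ γ v = v := by
          intro v
          rw [theta_eq θ τ hr (γ := γ) (δ := 1) (by rw [map_one]; exact Subtype.ext h), theta_one]
        have hE : Nat.card {d : G.edgeSet // Sym2.map (θ γ) d.1 = d.1} = Nat.card G.edgeSet := by
          refine Nat.card_congr ⟨fun d => d.1, fun d => ⟨d, ?_⟩, fun d => rfl, fun d => rfl⟩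
          have h1 : (fun v => θ γ v) = id := funext hid
          show Sym2.map (fun v => θ γ v) d.1 = d.1
          rw [h1, Sym2.map_id, id]
        have hV : (Finset.univ.filter (fun v : Fin (Fintype.card V) =>
            (⟨τ γ, γ, rfl⟩ : H) • v = v)).card = Fintype.card V := by
          rw [Finset.filter_true_of_mem, Finset.card_univ, Fintype.card_fin]
          intro a _
          rw [hact, hid]
          exact e.apply_symm_apply a
        rw [hE, hV, h, trace_one', Matrix.det_one]
        have h2 := hG.1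
        rw [Nat.card_eq_fintype_card (α := V)] at h2
        have h3 : ((Nat.card G.edgeSet : ℕ) : ℝ) + 3 = 2 * (Fintype.card V : ℝ) := by
          exact_mod_cast h2
        linarith
      · -- the half-turn
        have hV : (Finset.univ.filter (fun v : Fin (Fintype.card V) =>
            (⟨τ γ, γ, rfl⟩ : H) • v = v)).card = 0 := by
          rw [Finset.card_eq_zero, Finset.filter_eq_empty_iff]
          intro a _ h4
          rw [hact] at h4
          refine hc.1 γ hdet ?_ (e.symm a) ?_
          · rw [h]; exact neg_one_ne_one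
          · apply e.injective
            rw [h4, e.apply_symm_apply]
        have hE := hc.2 γ (Or.inr h)
        rw [hV, hE, htr, hdet]
        norm_num
      · -- rotations of order three
        have hV : (Finset.univ.filter (fun v : Fin (Fintype.card V) =>
            (⟨τ γ, γ, rfl⟩ : H) • v = v)).card = 0 := by
          rw [Finset.card_eq_zero, Finset.filter_eq_empty_iff]
          intro a _ h4
          rw [hact] at h4
          refine hc.1 γ hdet hne (e.symm a) ?_
          apply e.injective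
          rw [h4, e.apply_symm_apply]
        have hE : Nat.card {d : G.edgeSet // Sym2.map (θ γ) d.1 = d.1} = 0 := by
          rw [Nat.card_eq_zero]
          left
          constructor
          rintro ⟨⟨d, hd⟩, hd'⟩
          induction d using Sym2.ind with
          | _ u v =>
            have h5 : s(θ γ u, θ γ v) = s(u, v) := hd'
            rw [Sym2.eq_iff] at h5
            rcases h5 with ⟨h6, _⟩ | ⟨h6, h7⟩
            · exact hc.1 γ hdet hne u h6
            · have hm : (τ (γ * γ)).1 = (τ γ).1 * (τ γ).1 := by rw [map_mul]; rfl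
              refine hc.1 (γ * γ) (by rw [hm]; exact hdet2) (by rw [hm]; exact hne2) u ?_
              rw [theta_mul, h6, h7]
        rw [hV, hE, htr, hdet]
        norm_num
      · -- reflections
        have hE := hc.2 γ (Or.inl hdet)
        rw [hE, htr, hdet]
        norm_num)
  refine ⟨q ∘ e, ?_, ?_⟩
  · intro γ v
    have h1 := hq ⟨τ γ, γ, rfl⟩ (e v)
    rw [hact, e.symm_apply_apply] at h1
    exact h1
  · refine le_antisymm (rank_le_card_edges G _) ?_
    have h1 := rank_le G e q
    have h2 : 2 * Nat.card (tr G e).edgeSet ≤ 2 * (rigM (tr G e) q).rank := by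
      rw [← card_pairs]
      exact hrank
    have h3 : Nat.card (tr G e).edgeSet = Nat.card G.edgeSet := by
      have h4 := card_pairs (tr G e)
      have h5 := card_pairs G
      have h6 := card_filter_congr e (fun u v => G.Adj u v) (fun a b => (tr G e).Adj a b)
        (fun a b => Iff.rfl)
      omega
    omega

end

/-- isostatic = inc-regular, and density -/
theorem main {V : Type*} [Fintype V] (G : SimpleGraph V) {Γ : Type*} [Group Γ]
    (θ : Γ →* (G ≃g G)) (τ : Γ →* Matrix.orthogonalGroup (Fin 2) ℝ)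
    (hτ : IsC2v (Set.range fun γ : Γ => (τ γ).1) ∨ IsC3v (Set.range fun γ : Γ => (τ γ).1))
    (hG : IsLaman G) (hc : SymmetricCounts θ τ) (p : V → Fin 2 → ℝ)
    (hp : IsRealization θ τ p) :
    (IsIncRegular θ τ p ↔ IsIsostatic G p) ∧
      ∀ q : V → Fin 2 → ℝ, IsSymmetric θ τ q → ∀ ε : ℝ, 0 < ε →
        ∃ p' : V → Fin 2 → ℝ, IsRealization θ τ p' ∧ IsIsostatic G p' ∧ dist p' q < ε := by
  obtain ⟨q, hq, hrank⟩ := exists_full θ τ hτ hG hc hp
  obtain ⟨p₁, hp₁, hr₁⟩ := exists_good θ τ hp hq hrank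
  refine ⟨⟨?_, ?_⟩, ?_⟩
  · intro h
    refine ⟨le_antisymm (rank_le_card_edges G p) ?_, hG.1⟩
    rw [← hr₁]
    exact h.2 p₁ hp₁
  · intro h
    refine ⟨hp, fun q' _ => ?_⟩
    rw [h.1]
    exact rank_le_card_edges G q'
  · intro q' hq' ε hε
    obtain ⟨p', hp', hr', hd'⟩ := exists_near θ τ hp₁ hq' hr₁ ε hε
    exact ⟨p', hp', ⟨hr', hG.1⟩, hd'⟩

end Pool.Agent.DihedralLaman
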