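import Pool.Agent.Lib_MP_d5472a_co_ins.Line
import Pool.Agent.Lib_MP_d5472a_co_ins.Grp2
import Pool.Agent.Lib_MP_d5472a_co.Final

set_option autoImplicit false

/-! Transport of the lower bound of the library to an arbitrary vertex type and to the image of
the group. -/

namespace Pool.Agent.DihedralLaman
open Pool.Agent.SymLaman (rigM)

/-- ordered pairs of adjacent vertices and edges -/
theorem card_pairs {W : Type*} [Fintype W] [DecidableEq W] (F : SimpleGraph W)
    [DecidableRel F.Adj] :
    (Finset.univ.filter (fun x : W × W => F.Adj x.1 x.2)).card = 2 * Nat.card F.edgeSet := by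
  classical
  rw [Nat.card_eq_fintype_card, ← SimpleGraph.edgeFinset_card,
    ← SimpleGraph.dart_card_eq_twice_card_edges, ← Fintype.card_coe]
  refine Fintype.card_congr ⟨fun x => ⟨x.1, (Finset.mem_filter.1 x.2).2⟩,
    fun d => ⟨d.toProd, Finset.mem_filter.2 ⟨Finset.mem_univ _, d.adj⟩⟩, ?_, ?_⟩
  · intro x; rfl
  · intro d; rfl

/-- transport of a count of pairs -/
theorem card_filter_congr {V : Type*} [Fintype V] {W : Type*} [Fintype W]
    (e : V ≃ W) (R : V → V → Prop) [DecidablePred fun x : V × V => R x.1 x.2]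
    (R' : W → W → Prop) [DecidablePred fun x : W × W => R' x.1 x.2]
    (h : ∀ a b : W, R' a b ↔ R (e.symm a) (e.symm b)) :
    (Finset.univ.filter (fun x : W × W => R' x.1 x.2)).card
      = (Finset.univ.filter (fun x : V × V => R x.1 x.2)).card := by
  refine Finset.card_nbij' (fun x => (e.symm x.1, e.symm x.2)) (fun x => (e x.1, e x.2)) ?_ ?_ ?_ ?_
  · intro x hx
    rw [Finset.mem_coe, Finset.mem_filter] at hx ⊢
    exact ⟨Finset.mem_univ _, (h _ _).1 hx.2⟩
  · intro x hx
    rw [Finset.mem_coe, Finset.mem_filter] at hx ⊢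
    refine ⟨Finset.mem_univ _, (h _ _).2 ?_⟩
    simpa using hx.2
  · intro x _
    simp
  · intro x _
    simp

section
variable {V : Type*} [Fintype V] [DecidableEq V] (G : SimpleGraph V) {n : ℕ} (e : V ≃ Fin n)

/-- the transported graph -/
def tr : SimpleGraph (Fin n) := G.comap e.symm

omit [Fintype V] [DecidableEq V] in
theorem tr_adj (a b : Fin n) : (tr G e).Adj a b ↔ G.Adj (e.symm a) (e.symm b) := Iff.rfl

theorem rank_le (q : Fin n → Fin 2 → ℝ) [DecidableRel (tr G e).Adj] :
    (rigM (tr G e) q).rank ≤ (rigidityMatrix G (q ∘ e)).rank := by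
  classical
  have : Fintype G.edgeSet := Fintype.ofFinite _
  let col : Fin n × Fin 2 ≃ V × Fin 2 := Equiv.prodCongr e.symm (Equiv.refl _)
  let P : Matrix (Fin n × Fin n) G.edgeSet ℝ := fun x f =>
    if s(e.symm x.1, e.symm x.2) = f.1 then 1 else 0
  have hfac : rigM (tr G e) q = P * (rigidityMatrix G (q ∘ e)).submatrix id col := by
    ext x c
    obtain ⟨a, b⟩ := x
    rw [Matrix.mul_apply]
    by_cases hab : G.Adj (e.symm a) (e.symm b)
    · have hmem : s(e.symm a, e.symm b) ∈ G.edgeSet := by
        rw [SimpleGraph.mem_edgeSet]; exact hab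
      rw [Finset.sum_eq_single (⟨s(e.symm a, e.symm b), hmem⟩ : G.edgeSet)]
      · have h1 : P (a, b) ⟨s(e.symm a, e.symm b), hmem⟩ = 1 := if_pos rfl
        rw [h1, one_mul]
        show rigM (tr G e) q (a, b) c
          = rigidityMatrix G (q ∘ e) ⟨s(e.symm a, e.symm b), hmem⟩ (e.symm c.1, c.2)
        have hadj : (tr G e).Adj a b := hab
        have hne : a ≠ b := hadj.ne
        simp only [rigM, Matrix.of_apply, hadj, if_true, rigidityMatrix]
        by_cases h2 : c.1 = a
        · have h3 : e.symm c.1 ∈ s(e.symm a, e.symm b) := by rw [h2]; exact Sym2.mem_mk_left _ _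
          rw [dif_pos h3, if_pos h2]
          have h4 : Sym2.Mem.other h3 = e.symm b := by
            have h5 := Sym2.other_spec h3
            rw [Sym2.eq_iff] at h5
            rcases h5 with ⟨_, h6⟩ | ⟨h6, _⟩
            · exact h6
            · exfalso
              rw [h2] at h6
              exact hne (e.symm.injective h6)
          rw [h4]
          simp [h2]
        · by_cases h2' : c.1 = b
          · have h3 : e.symm c.1 ∈ s(e.symm a, e.symm b) := by
              rw [h2']; exact Sym2.mem_mk_right _ _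
            rw [dif_pos h3, if_neg h2, if_pos h2']
            have h4 : Sym2.Mem.other h3 = e.symm a := by
              have h5 := Sym2.other_spec h3
              rw [Sym2.eq_iff] at h5
              rcases h5 with ⟨h6, _⟩ | ⟨_, h6⟩
              · exfalso
                rw [h2'] at h6
                exact hne (e.symm.injective h6).symm
              · exact h6
            rw [h4]
            simp [h2']
          · have h3 : ¬ e.symm c.1 ∈ s(e.symm a, e.symm b) := by
              rw [Sym2.mem_iff, not_or]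
              exact ⟨fun h => h2 (e.symm.injective h), fun h => h2' (e.symm.injective h)⟩
            rw [dif_neg h3, if_neg h2, if_neg h2']
      · intro f _ hf
        have h1 : P (a, b) f = 0 := by
          refine if_neg ?_
          intro h
          exact hf (Subtype.ext h.symm)
        rw [h1, zero_mul]
      · intro h
        exact absurd (Finset.mem_univ _) h
    · have hadj : ¬ (tr G e).Adj a b := hab
      rw [Finset.sum_eq_zero]
      · simp [rigM, hadj]
      · intro f _
        have h1 : P (a, b) f = 0 := by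
          refine if_neg ?_
          intro h
          apply hab
          have h2 := f.2
          rw [← h, SimpleGraph.mem_edgeSet] at h2
          exact h2
        rw [h1, zero_mul]
  rw [hfac]
  refine (Matrix.rank_mul_le_right _ _).trans ?_
  exact Matrix.rank_submatrix_le _ _ _

theorem laman_tr (hG : IsLaman G) [DecidableRel (tr G e).Adj] (S : Finset (Fin n))
    (hS : 2 ≤ S.card) :
    (((S ×ˢ S).filter (fun x : Fin n × Fin n => (tr G e).Adj x.1 x.2)).card : ℤ)
      ≤ 2 * (2 * (S.card : ℤ) - 3) := by
  classical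
  let H : G.Subgraph := (⊤ : G.Subgraph).induce {v : V | e v ∈ S}
  have hv : Nat.card H.verts = S.card := by
    have h1 : Nat.card H.verts = Nat.card S := by
      refine Nat.card_congr ⟨fun v => ⟨e v.1, v.2⟩, fun a => ⟨e.symm a.1, ?_⟩, ?_, ?_⟩
      · show e (e.symm a.1) ∈ S
        rw [Equiv.apply_symm_apply]
        exact a.2
      · intro v
        exact Subtype.ext (e.symm_apply_apply v.1)
      · intro a
        exact Subtype.ext (e.apply_symm_apply a.1)
    rw [h1, Nat.card_eq_fintype_card, Fintype.card_coe]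
  have h2 := hG.2 H (by rw [hv]; exact hS)
  have h3 : ((S ×ˢ S).filter (fun x : Fin n × Fin n => (tr G e).Adj x.1 x.2)).card
      = 2 * Nat.card H.spanningCoe.edgeSet := by
    rw [← card_pairs]
    have h4 : (S ×ˢ S).filter (fun x : Fin n × Fin n => (tr G e).Adj x.1 x.2)
        = Finset.univ.filter (fun x : Fin n × Fin n =>
          (x.1 ∈ S ∧ x.2 ∈ S) ∧ (tr G e).Adj x.1 x.2) := by
      ext x
      simp only [Finset.mem_filter, Finset.mem_product, Finset.mem_univ, true_and]
    rw [h4]
    refine card_filter_congr e (fun u v => H.spanningCoe.Adj u v)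
      (fun a b => (a ∈ S ∧ b ∈ S) ∧ (tr G e).Adj a b) ?_
    intro a b
    rw [SimpleGraph.Subgraph.spanningCoe_adj]
    show _ ↔ (e.symm a ∈ {v : V | e v ∈ S} ∧ e.symm b ∈ {v : V | e v ∈ S} ∧
      (⊤ : G.Subgraph).Adj (e.symm a) (e.symm b))
    simp only [Set.mem_ofPred_eq, Equiv.apply_symm_apply, SimpleGraph.Subgraph.top_adj, tr_adj]
    tauto
  have h5 : Nat.card H.spanningCoe.edgeSet = Nat.card H.edgeSet := by
    have h6 : H.spanningCoe.edgeSet = H.edgeSet := by
      ext f
      induction f using Sym2.ind with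
      | _ u v => simp [SimpleGraph.Subgraph.mem_edgeSet]
    rw [h6]
  rw [h3, h5]
  rw [hv] at h2
  push_cast
  have h7 : ((Nat.card H.edgeSet : ℕ) : ℤ) + 3 ≤ 2 * (S.card : ℤ) := by exact_mod_cast h2
  linarith

/-- the graph of the edges fixed by a permutation -/
def fixG (f : V → V) : SimpleGraph V where
  Adj u v := G.Adj u v ∧ Sym2.map f s(u, v) = s(u, v)
  symm := ⟨fun u v h => ⟨h.1.symm, by rw [Sym2.eq_swap]; exact h.2⟩⟩
  loopless := ⟨fun u h => G.loopless.irrefl u h.1⟩

omit [Fintype V] [DecidableEq V] in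
theorem card_fixG (f : V → V) :
    Nat.card (fixG G f).edgeSet = Nat.card {d : G.edgeSet // Sym2.map f d.1 = d.1} := by
  refine Nat.card_congr ⟨fun d => ⟨⟨d.1, ?_⟩, ?_⟩, fun d => ⟨d.1.1, ?_⟩, ?_, ?_⟩
  · have h := d.2
    induction hd : d.1 using Sym2.ind with
    | _ u v =>
      rw [hd, SimpleGraph.mem_edgeSet] at h
      exact h.1
  · have h := d.2
    show Sym2.map f d.1 = d.1
    induction hd : d.1 using Sym2.ind with
    | _ u v =>
      rw [hd, SimpleGraph.mem_edgeSet] at h
      exact h.2
  · obtain ⟨⟨d, hd⟩, hd'⟩ := d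
    induction d using Sym2.ind with
    | _ u v =>
      rw [SimpleGraph.mem_edgeSet] at hd ⊢
      exact ⟨hd, hd'⟩
  · intro d
    rfl
  · intro d
    rfl

theorem card_fixed_pairs (f : V → V) (g : Fin n → Fin n) (hg : ∀ a, g a = e (f (e.symm a)))
    [DecidableRel (tr G e).Adj] :
    (Finset.univ.filter (fun x : Fin n × Fin n => (tr G e).Adj x.1 x.2 ∧
      ((g x.1 = x.1 ∧ g x.2 = x.2) ∨ (g x.1 = x.2 ∧ g x.2 = x.1)))).card
      = 2 * Nat.card {d : G.edgeSet // Sym2.map f d.1 = d.1} := by
  classical
  rw [← card_fixG, ← card_pairs]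
  refine card_filter_congr e (fun u v => (fixG G f).Adj u v)
    (fun a b => (tr G e).Adj a b ∧ ((g a = a ∧ g b = b) ∨ (g a = b ∧ g b = a))) ?_
  intro a b
  have h1 : ∀ a b : Fin n, g a = b ↔ f (e.symm a) = e.symm b := by
    intro a b
    rw [hg a]
    constructor
    · intro h; rw [← h, Equiv.symm_apply_apply]
    · intro h; rw [h, Equiv.apply_symm_apply]
  rw [tr_adj, h1, h1, h1, h1]
  show _ ↔ (G.Adj (e.symm a) (e.symm b) ∧
    Sym2.map f s(e.symm a, e.symm b) = s(e.symm a, e.symm b))
  rw [Sym2.map_mk, Sym2.eq_iff]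

end

end Pool.Agent.DihedralLaman
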